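import Pool.Agent.TH819.PM.All3
import Pool.Agent.TH819.PM.Large
import Pool.Agent.V1173.BS.Core

/-!
# Deviations of both signs of the primes in the residue classes to EVERY modulus of a range

Let `m ≥ 2`, `δ > 0`. For all large `X` and ALL moduli `Q ≤ X` with `Q ≥ X ^ (1 - 1 / (2 m) + δ)` put
`T = √((X / φ(Q)) (1 + log (X / Q)))`, `B = (X / φ(Q)) log X` and `U = c T (T / B) ^ (1 / (2 m - 1))`. Then the mean of
`|ψ(X;Q,A) - z|` over the reduced classes `A` modulo `Q` is at least `U`, for every real centre `z`. If `y` is the mean of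
`ψ(X;Q,A)` over the reduced classes, then a proportion at least `U / B` of the reduced classes has `ψ(X;Q,A) ≥ y + U`, a
proportion at least `U / B` has `ψ(X;Q,A) ≤ y - U`, and the classes above the mean as well as those below the mean
contribute at least `φ(Q) U ^ 2` to the variance `∑ (ψ(X;Q,A) - y) ^ 2 ≤ G(X,Q)`.

The proof uses the lower bound for the moment of order `2 m / (2 m - 1)` about every centre of an earlier round
(`TH819.PM.ap_all3`) and an elementary argument (`Pool.Agent.V1173.BS`).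
-/

set_option autoImplicit false

open Finset

namespace Pool.Agent.Results.MP_5d318d_nt.BothSignsEveryModulus

/-- `ψ(X;Q,A)`: the sum of `Λ(n)` over `1 ≤ n ≤ X`, `n ≡ A` modulo `Q`. -/
noncomputable def psi (X : ℝ) (Q A : ℕ) : ℝ :=
  ∑ n ∈ (Icc 1 ⌊X⌋₊).filter (fun n => n ≡ A [MOD Q]), ArithmeticFunction.vonMangoldt n

/-- The reduced residue classes modulo `Q`, represented by `0 ≤ A < Q`. -/
def red (Q : ℕ) : Finset ℕ := (range Q).filter (fun A => A.Coprime Q)

theorem result : ∀ m : ℕ, 2 ≤ m → ∀ δ : ℝ, 0 < δ → ∃ c X₀ : ℝ, 0 < c ∧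
    ∀ X : ℝ, X₀ ≤ X → ∀ Q : ℕ, (Q : ℝ) ≤ X → X ≤ Q * X ^ (1 / (2 * (m : ℝ)) - δ) →
    ∀ T B U : ℝ, T = √(X / Nat.totient Q * (1 + Real.log (X / Q))) → B = X / Nat.totient Q * Real.log X →
      U = c * T * (T / B) ^ (1 / (2 * (m : ℝ) - 1)) →
      (∀ z : ℝ, Nat.totient Q * U ≤ ∑ A ∈ red Q, |psi X Q A - z|) ∧
      ∀ y : ℝ, Nat.totient Q * y = ∑ A ∈ red Q, psi X Q A →
        Nat.totient Q * (U / B) ≤ (((red Q).filter (fun A => y + U ≤ psi X Q A)).card : ℝ) ∧
        Nat.totient Q * (U / B) ≤ (((red Q).filter (fun A => psi X Q A ≤ y - U)).card : ℝ) ∧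
        Nat.totient Q * U ^ 2 ≤ ∑ A ∈ (red Q).filter (fun A => y ≤ psi X Q A), (psi X Q A - y) ^ 2 ∧
        Nat.totient Q * U ^ 2 ≤ ∑ A ∈ (red Q).filter (fun A => psi X Q A ≤ y), (psi X Q A - y) ^ 2 := by
  intro m hm δ hδ
  have hm0 : (2 : ℝ) ≤ m := by exact_mod_cast hm
  have hkm : (0 : ℝ) < 2 * m - 1 := by linarith
  obtain ⟨c1, X0, hc1, h⟩ := TH819.PM.ap_all3 m hm δ hδ
  obtain ⟨r, hr⟩ : ∃ r : ℝ, r = 1 / (2 * (m : ℝ) - 1) := ⟨_, rfl⟩
  have hr0 : 0 < r := by rw [hr]; positivity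
  have hpr : 1 + r = 2 * (m : ℝ) / (2 * m - 1) := by
    rw [hr]
    field_simp
    ring
  refine ⟨c1 * (c1 / 2) ^ r / 8, X0, by positivity, fun X hX Q hQ hXQ T B U hT hB hU => ?_⟩
  obtain ⟨hQ1, hlog, hall⟩ := h X hX Q hQ hXQ
  rw [← hr] at hU
  have hQ0 : (0 : ℝ) < Q := by exact_mod_cast hQ1
  have hX0 : 0 < X := by linarith
  have hφ : (0 : ℝ) < Nat.totient Q := by exact_mod_cast Nat.totient_pos.2 hQ1
  have hφQ : (Nat.totient Q : ℝ) ≤ Q := by exact_mod_cast Nat.totient_le Q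
  have hcard : ((red Q).card : ℝ) = Nat.totient Q := by
    rw [red, TH819.PM.card_red' Q]
  have hB0 : 0 < B := by
    rw [hB]
    have : 0 < Real.log X := by linarith
    positivity
  have hT0 : 0 ≤ T := by
    rw [hT]
    exact Real.sqrt_nonneg _
  obtain ⟨V, hV⟩ : ∃ V : ℝ, V = c1 * T * (c1 * T / (2 * B)) ^ r := ⟨_, rfl⟩
  have hVU : V = 8 * U := by
    have e1 : c1 * T / (2 * B) = (c1 / 2) * (T / B) := by
      field_simp
    rw [hV, hU, e1, Real.mul_rpow (by positivity) (by positivity)]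
    ring
  have hU0 : 0 ≤ U := by
    rw [hU]
    positivity
  have h0 : ∀ A ∈ red Q, 0 ≤ psi X Q A := fun A _ => TH819.PM.psiA_nonneg X Q A
  have h1 : ∀ A ∈ red Q, psi X Q A ≤ 2 * B := by
    intro A _
    refine (TH819.PM.psiA_le (A := A) hQ1 hQ).trans ?_
    rw [hB]
    have h2 : X / Q ≤ X / Nat.totient Q := by gcongr
    have h3 : X / Q * Real.log X ≤ X / Nat.totient Q * Real.log X := by
      have : 0 ≤ Real.log X := by linarith
      gcongr
    linarith
  obtain ⟨g1, g2⟩ := Pool.Agent.V1173.BS.both (red Q) (psi X Q) (D := 2 * B) (T := c1 * T) (r := r)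
    (by positivity) (by positivity) hr0 h0 h1 (fun y => by
      rw [hcard, hpr, hT]
      exact hall y _ le_rfl) hV
  rw [hcard] at g1 g2
  have hcv : V / 4 / (2 * B) = U / B := by
    rw [hVU]
    field_simp
    ring
  have hsq : (Nat.totient Q : ℝ) * U ^ 2 ≤ Nat.totient Q * (V / 2) ^ 2 := by
    apply mul_le_mul_of_nonneg_left _ hφ.le
    apply pow_le_pow_left₀ hU0
    rw [hVU]
    linarith
  refine ⟨fun z => le_trans ?_ (g1 z), fun y hy => ?_⟩
  · apply mul_le_mul_of_nonneg_left _ hφ.le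
    rw [hVU]
    linarith
  obtain ⟨a1, a2, a3, a4⟩ := g2 y hy
  rw [hcv] at a1 a2
  refine ⟨a1.trans ?_, a2.trans ?_, hsq.trans a3, hsq.trans a4⟩
  · refine Nat.cast_le.2 (card_le_card fun A hA => ?_)
    rw [mem_filter] at hA ⊢
    exact ⟨hA.1, by linarith [hA.2]⟩
  · refine Nat.cast_le.2 (card_le_card fun A hA => ?_)
    rw [mem_filter] at hA ⊢
    exact ⟨hA.1, by linarith [hA.2]⟩

end Pool.Agent.Results.MP_5d318d_nt.BothSignsEveryModulus
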