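import Pool.Agent.TH935.HM1
import Pool.Agent.V11290.FD.Box

/-!
# Hooley's asymptotic formula for the variance, for all moduli near `t α + s`, `α` in sets of small Fourier dimension

Let `μ` be ANY compactly supported probability measure on the line whose Fourier transform decays like some power, with an
arbitrarily small exponent `σ > 0`. For `μ`-almost every `α` and all but finitely many `j` ALL moduli
`Q ≥ t / log ^ κ t` near `t α + s`, `t = t j`, `s = s j`, satisfy `G(x, Q) = (1 + o(1)) x log Q` for all `Q ≤ x ≤ Q log ^ κ Q`.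
The integers near `t α + s` are modelled by families of nearly minimal additive energy, to which the theorem `mod_fam` of
the library TH935.HM (starting files) applies.
-/

set_option autoImplicit false

namespace Pool.Agent.Results.MP_5d318d_nt.FourierDecay

open Finset MeasureTheory

/-- `ψ(x; q, a) = ∑_{n ≤ x, n ≡ a mod q} Λ(n)` for `0 ≤ a < q` -/
noncomputable def psiAP (x : ℝ) (q a : ℕ) : ℝ :=
  ∑ n ∈ (Icc 1 ⌊x⌋₊).filter (fun n => n % q = a), ArithmeticFunction.vonMangoldt n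

/-- The variance `G(x,q) = ∑_{a mod q, (a,q)=1} (ψ(x;q,a) - x/φ(q))²`. -/
noncomputable def G (x : ℝ) (q : ℕ) : ℝ :=
  ∑ a ∈ (range q).filter (fun a => Nat.Coprime a q), (psiAP x q a - x / (Nat.totient q : ℝ)) ^ 2

/-- `|G(x,Q) - x log Q| ≤ ε x log Q` for all real `x` with `Q ≤ x ≤ Q (log Q) ^ κ`. -/
def Good (ε : ℝ) (κ Q : ℕ) : Prop :=
  ∀ x : ℝ, (Q : ℝ) ≤ x → x ≤ Q * Real.log Q ^ κ → |G x Q - x * Real.log Q| ≤ ε * (x * Real.log Q)

/-- Let `μ` be a probability measure on `[-B, B]` with `|μ^(ξ)| ≤ C |ξ| ^ (-σ)` for `|ξ| ≥ 1` and some `C` and `σ > 0`.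
Let `t j ≥ 2` and `|s j| ≤ B t j` be real numbers, where `j` ranges over a set `J`, such that the sum of the
`1 / log ^ V (t j)` converges for some `V`. Then for `μ`-almost every `α`, for all `A`, `κ` and `ε > 0` and for all but finitely
many `j`: ALL moduli `Q ≥ t j / log ^ κ (t j)` with `|Q - (t j α + s j)| ≤ log ^ A (t j)` satisfy
`|G(x, Q) - x log Q| ≤ ε x log Q` for ALL real `x` with `Q ≤ x ≤ Q log ^ κ Q`. -/
theorem result (μ : Measure ℝ) [IsProbabilityMeasure μ] (B : ℝ) (hμ : ∀ᵐ α ∂μ, |α| ≤ B)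
    (C σ : ℝ) (hσ : 0 < σ) (hdec : ∀ ξ : ℝ, 1 ≤ |ξ| → ‖charFun μ ξ‖ ≤ C * |ξ| ^ (-σ))
    (J : Type) (t s : J → ℝ) (ht : ∀ j, 2 ≤ t j) (hs : ∀ j, |s j| ≤ B * t j)
    (hsum : ∃ V : ℕ, Summable fun j => 1 / Real.log (t j) ^ V) :
    ∀ᵐ α ∂μ, ∀ (A κ : ℕ) (ε : ℝ), 0 < ε →
      {j | ¬ ∀ Q : ℕ, |(Q : ℝ) - (t j * α + s j)| ≤ Real.log (t j) ^ A → t j / Real.log (t j) ^ κ ≤ Q →
        Good ε κ Q}.Finite := by
  classical
  obtain ⟨V, hV⟩ := hsum
  obtain ⟨M, hM⟩ := exists_nat_ge (2 * (|B| + 1) + 8)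
  have hM1 : 1 ≤ M := by
    have : (1 : ℝ) ≤ M := by linarith [abs_nonneg B]
    exact_mod_cast this
  have h := Pool.Agent.V11290.FD.abs_box μ B hμ C σ hσ hdec t s ht hs V hV 1 M hM1 (by push_cast; rw [one_mul]; exact hM)
    (fun i j n => 0 < n → t j / Real.log (t j) ^ (Nat.unpair i).1 ≤ n →
      Good (1 / (((Nat.unpair i).2 : ℝ) + 1)) (Nat.unpair i).1 n.toNat) (by
    intro i p U hp
    obtain ⟨κ, hκ⟩ : ∃ κ, κ = (Nat.unpair i).1 := ⟨_, rfl⟩
    obtain ⟨m, hm⟩ : ∃ m, m = (Nat.unpair i).2 := ⟨_, rfl⟩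
    rw [← hκ, ← hm]
    have hε1 : 1 / ((m : ℝ) + 1) ≤ 1 := by
      rw [div_le_one (by positivity)]
      linarith [(Nat.cast_nonneg m : (0 : ℝ) ≤ m)]
    obtain ⟨N₀, h0⟩ := Pool.Agent.TH935.HM.mod_fam p 2 (κ + 1) U (1 / ((m : ℝ) + 1)) (by positivity) hε1
    obtain ⟨t1, ht1⟩ := Pool.Agent.V11290.FD.log_pow_le κ (1 / 3) (by norm_num)
    obtain ⟨N₁, hN₁⟩ := Pool.Agent.V11290.FD.ceil_large M hM1 (max t1 (Real.exp (2 * M)))
    refine ⟨N₀ + N₁, fun j hj x v hx hv hE 𝒮 h𝒮 hbad => ?_⟩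
    have htj := ht j
    have htt := hN₁ (t j) (by omega)
    have q1 : t1 ≤ t j := (le_max_left _ _).trans htt
    have q2 : Real.exp (2 * M) ≤ t j := (le_max_right _ _).trans htt
    have hlog : 2 * (M : ℝ) ≤ Real.log (t j) := by
      rw [Real.le_log_iff_exp_le (by linarith)]
      exact q2
    have hMr : (1 : ℝ) ≤ M := by exact_mod_cast hM1
    have hl0 : 0 < Real.log (t j) := by linarith
    have hlp := ht1 (t j) q1
    obtain ⟨N, hN⟩ : ∃ N : ℕ, N = M * ⌈t j⌉₊ := ⟨_, rfl⟩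
    rw [← hN] at hj hv hE ⊢
    have hNt : (N : ℝ) ≤ 2 * M * t j := by
      rw [hN]
      push_cast
      have := (Nat.ceil_lt_add_one (by linarith : 0 ≤ t j)).le
      nlinarith
    have htN : t j ≤ N := by
      rw [hN]
      push_cast
      have := Nat.le_ceil (t j)
      nlinarith
    have hlogN : Real.log (t j) ≤ Real.log N := Real.log_le_log (by linarith) htN
    refine h0 N (by omega) x v (fun n hn => ?_) hE 𝒮 h𝒮 (fun n hn => ?_)
    · have := hv n hn
      rwa [Nat.cast_one, one_mul] at this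
    · have h1 := hbad n hn
      push Not at h1
      obtain ⟨h2, h3, h4⟩ := h1
      have e1 : (((v n).toNat : ℕ) : ℝ) = (v n : ℝ) := by
        have : (((v n).toNat : ℕ) : ℤ) = v n := Int.toNat_of_nonneg h2.le
        exact_mod_cast this
      have h5 : t j ≤ (v n : ℝ) * Real.log (t j) ^ κ := by
        rwa [div_le_iff₀ (by positivity)] at h3
      have hv0 : (0 : ℝ) < v n := by exact_mod_cast h2
      have h6 : 3 ≤ (v n : ℝ) := by
        by_contra hcon
        push Not at hcon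
        have hp0 : 0 < Real.log (t j) ^ κ := by positivity
        have h7 : (v n : ℝ) * Real.log (t j) ^ κ < 3 * Real.log (t j) ^ κ := mul_lt_mul_of_pos_right hcon hp0
        linarith
      have hvN : (v n : ℝ) ≤ N := by
        have h8 := hv n (h𝒮 hn)
        rw [Nat.cast_one, one_mul] at h8
        have h9 := (abs_le.1 h8).2
        exact_mod_cast h9
      unfold Good at h4
      push Not at h4
      obtain ⟨y, y1, y2, y3⟩ := h4
      refine ⟨h2, ?_, y, y1, ?_, not_le.2 y3⟩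
      · rw [e1]
        calc (N : ℝ) ≤ 2 * M * t j := hNt
          _ ≤ Real.log (t j) * ((v n : ℝ) * Real.log (t j) ^ κ) := mul_le_mul hlog h5 (by linarith) hl0.le
          _ = (v n : ℝ) * Real.log (t j) ^ (κ + 1) := by ring
          _ ≤ _ := mul_le_mul_of_nonneg_left (pow_le_pow_left₀ hl0.le hlogN _) hv0.le
      · refine y2.trans ?_
        rw [e1]
        apply mul_le_mul_of_nonneg_left _ hv0.le
        have g1 : 1 ≤ Real.log (v n : ℝ) := by
          rw [Real.le_log_iff_exp_le (by linarith)]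
          linarith [Real.exp_one_lt_d9]
        have g2 : Real.log (v n : ℝ) ≤ Real.log N := Real.log_le_log hv0 hvN
        calc Real.log (v n : ℝ) ^ κ ≤ Real.log N ^ κ := pow_le_pow_left₀ (by linarith) g2 _
          _ ≤ Real.log N ^ (κ + 1) := pow_le_pow_right₀ (by linarith) (by omega))
  filter_upwards [h] with α hα A κ ε hε
  obtain ⟨m, hm⟩ := exists_nat_ge (1 / ε)
  have hε' : 1 / ((m : ℝ) + 1) ≤ ε := by
    rw [div_le_iff₀ hε] at hm
    rw [div_le_iff₀ (by positivity)]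
    nlinarith
  obtain ⟨t1, ht1⟩ := Pool.Agent.V11290.FD.log_pow_le κ (1 / 3) (by norm_num)
  have hsmall := Pool.Agent.V11290.FD.small_fin t ht V hV (max t1 3)
  refine ((hα A (Nat.pair κ m)).union hsmall).subset ?_
  intro j hj
  rw [Set.mem_ofPred_eq] at hj
  by_cases h3 : t j < max t1 3
  · right
    exact h3
  left
  rw [not_lt] at h3
  have q1 : t1 ≤ t j := (le_max_left _ _).trans h3
  have q2 : 3 ≤ t j := (le_max_right _ _).trans h3
  rw [Set.mem_ofPred_eq]
  intro hall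
  apply hj
  intro a ha hat
  have hl0 : 0 < Real.log (t j) := Real.log_pos (by linarith)
  have hp0 : 0 < Real.log (t j) ^ κ := by positivity
  have h6 : 3 ≤ (a : ℝ) := by
    rw [div_le_iff₀ hp0] at hat
    have hlp := ht1 (t j) q1
    by_contra hcon
    push Not at hcon
    have h7 : (a : ℝ) * Real.log (t j) ^ κ < 3 * Real.log (t j) ^ κ := mul_lt_mul_of_pos_right hcon hp0
    linarith
  have ha0 : 0 < a := by
    have : (0 : ℝ) < a := by linarith
    exact_mod_cast this
  have h1 := hall (a : ℤ) (by exact_mod_cast ha) (by exact_mod_cast ha0)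
  rw [Nat.unpair_pair] at h1
  have h2 := h1 (by exact_mod_cast hat)
  rw [Int.toNat_natCast] at h2
  intro x hx1 hx2
  refine (h2 x hx1 hx2).trans ?_
  have hla : 0 ≤ Real.log (a : ℝ) := Real.log_nonneg (by linarith)
  exact mul_le_mul_of_nonneg_right hε' (mul_nonneg (by linarith) hla)

end Pool.Agent.Results.MP_5d318d_nt.FourierDecay
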